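import Pool.Agent.Helper80.NHM.Stmt
import Pool.Agent.Helper533.Deny.Defs
open MeasureTheory Filter Topology Set Metric
open scoped ENNReal NNReal RealInnerProductSpace

/-!
Internal definitions and interfaces for MP_fecf7d_an.
`Pool.Agent.Helper533.Polar` (helper533) is the nonlinear potential theory library; it is used with
`p = n` and `μ = volume`.
-/

namespace Pool.Agent.Helper80.NHM

open Pool.Agent.Helper533

variable {n : ℕ}

/-- admissible operator with constants `α ≤ β`, in the form used by `Helper533.Polar` -/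
structure AOp (n : ℕ) (α β : ℝ) (A : Sp n → Sp n → Sp n) : Prop where
  pos : 0 < α
  le : α ≤ β
  op : Polar.Op (n : ℝ) α β volume A
  smono : Polar.SMono volume A

/-- `u` is `A`-harmonic in the open set `U` (local class of `Helper533.Polar`) -/
def Harm (A : Sp n → Sp n → Sp n) (U : Set (Sp n)) (u : Sp n → ℝ) : Prop :=
  ContinuousOn u U ∧ ∃ H : Sp n → Sp n, Polar.LH (n : ℝ) volume U u H ∧
    ∀ φ : Sp n → ℝ, Polar.Cc U φ → ∫ x, ⟪A x (H x), gradient φ x⟫ = 0

/-- `(A*, A)`-harmonic morphism -/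
structure Morph (Astar A : Sp n → Sp n → Sp n) (G : Set (Sp n)) (f : Sp n → Sp n) : Prop where
  cont : ContinuousOn f G
  pull : ∀ G' : Set (Sp n), IsOpen G' → ∀ u : Sp n → ℝ, Harm A G' u →
    Harm Astar (G ∩ f ⁻¹' G') (u ∘ f)

/-- `U` is a normal open set over the ball `B(y,s)`, compactly inside `G` (not nec. connected) -/
structure Normal (G : Set (Sp n)) (f : Sp n → Sp n) (U : Set (Sp n)) (y : Sp n) (s : ℝ) : Prop where
  spos : 0 < s
  isOpen : IsOpen U
  compact : IsCompact (closure U)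
  sub : closure U ⊆ G
  maps : ∀ x ∈ U, f x ∈ ball y s
  bdry : ∀ x ∈ frontier U, f x ∉ ball y s

/-- `f` is open on `G` -/
def IsOpenMapOn (G : Set (Sp n)) (f : Sp n → Sp n) : Prop :=
  ∀ V ⊆ G, IsOpen V → IsOpen (f '' V)

/-- `f` is light on `G`: a connected subset of a fibre is a point -/
def IsLightOn (G : Set (Sp n)) (f : Sp n → Sp n) : Prop :=
  ∀ K ⊆ G, IsPreconnected K → (∀ x ∈ K, ∀ y ∈ K, f x = f y) → K.Subsingleton

/-- `f` is locally finite-to-one with normal neighbourhoods: around every point there is a normal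
open set with uniformly bounded fibres -/
def LocFin (G : Set (Sp n)) (f : Sp n → Sp n) : Prop :=
  ∀ x₀ ∈ G, ∃ (U : Set (Sp n)) (s : ℝ) (N : ℕ), x₀ ∈ U ∧ Normal G f U (f x₀) s ∧
    ∀ b, (U ∩ f ⁻¹' {b}).encard ≤ N

/-- local energy bound for pull-backs of cut-off functions on balls (INPUT for the Sobolev part):
around every point `x₀` there are a normal open set `U` over `B(f x₀, s)` and `M, L` such that for
every ball `B(y,r)` with `B(y, L r) ⊆ B(f x₀, s)` there is a continuous `u : ℝⁿ → [0,1]`, equal to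
`1` on `B(y,r)` and `0` off `B(y,L r)`, with `u ∘ f ∈ W^{1,n}_loc(U)` and energy `≤ M` on `U`. -/
def EnergyInput (G : Set (Sp n)) (f : Sp n → Sp n) : Prop :=
  ∀ x₀ ∈ G, ∃ (U : Set (Sp n)) (s M L : ℝ), x₀ ∈ U ∧ Normal G f U (f x₀) s ∧ 1 < L ∧
    ∀ (y : Sp n) (r : ℝ), 0 < r → ball y (L * r) ⊆ ball (f x₀) s →
      ∃ (u : Sp n → ℝ) (H : Sp n → Sp n), Continuous u ∧ (∀ z, 0 ≤ u z ∧ u z ≤ 1) ∧
        (∀ z ∈ ball y r, u z = 1) ∧ (∀ z, z ∉ ball y (L * r) → u z = 0) ∧
        IsWeakGrad U (u ∘ f) H ∧ IntegrableOn (fun x => ‖H x‖ ^ n) U ∧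
        ∫ x in U, ‖H x‖ ^ n ≤ M

/-- universal volume lower bound for images of balls -/
def VolBound (G : Set (Sp n)) (f : Sp n → Sp n) : Prop :=
  ∃ C : ℝ, ∀ (x : Sp n) (r : ℝ), 0 < r → closedBall x (3 * r) ⊆ G → ∀ z ∈ closedBall x r,
    dist (f z) (f x) ^ n ≤ C * (volume (f '' closedBall x (2 * r))).toReal

/-- PART B: a nonconstant morphism on a domain is open and light, and satisfies the universal
volume bound. -/
def PartB (n : ℕ) : Prop :=
  ∀ (α β α' β' : ℝ) (Astar A : Sp n → Sp n → Sp n), AOp n α β Astar → AOp n α' β' A →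
    ∀ (G : Set (Sp n)) (f : Sp n → Sp n), IsOpen G → IsPreconnected G → Morph Astar A G f →
      (∃ x ∈ G, ∃ y ∈ G, f x ≠ f y) →
      IsOpenMapOn G f ∧ IsLightOn G f ∧ VolBound G f

/-- PART C: an open light morphism is locally finite-to-one, and has the energy bound. -/
def PartC (n : ℕ) : Prop :=
  ∀ (α β α' β' : ℝ) (Astar A : Sp n → Sp n → Sp n), AOp n α β Astar → AOp n α' β' A →
    ∀ (G : Set (Sp n)) (f : Sp n → Sp n), IsOpen G → IsPreconnected G → Morph Astar A G f →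
      IsOpenMapOn G f → IsLightOn G f → LocFin G f ∧ EnergyInput G f

/-- the weak derivative of `f` on `G` is `D` -/
def IsWeakDeriv (G : Set (Sp n)) (f : Sp n → Sp n) (D : Sp n → (Sp n →L[ℝ] Sp n)) : Prop :=
  ∀ i : Fin n, IsWeakGrad G (fun x => f x i)
    (fun x => ContinuousLinearMap.adjoint (D x) (EuclideanSpace.single i (1 : ℝ)))

/-- PART D: Sobolev regularity and the distortion inequality with a uniform constant. -/
def PartD (n : ℕ) : Prop :=
  ∀ (G : Set (Sp n)) (f : Sp n → Sp n), IsOpen G → ContinuousOn f G →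
      IsOpenMapOn G f → IsLightOn G f → LocFin G f → EnergyInput G f → VolBound G f →
      ∃ (D : Sp n → (Sp n →L[ℝ] Sp n)) (K : ℝ), 1 ≤ K ∧ IsWeakDeriv G f D ∧
        ∀ᵐ x ∂(volume.restrict G), ‖D x‖ ^ n ≤ K * |(D x).det|

/-- PART E: orientation. -/
def PartE (n : ℕ) : Prop :=
  ∀ (G : Set (Sp n)) (f : Sp n → Sp n) (D : Sp n → (Sp n →L[ℝ] Sp n)) (K : ℝ),
    IsOpen G → IsPreconnected G → ContinuousOn f G → IsOpenMapOn G f → LocFin G f →
    IsWeakDeriv G f D → (∀ᵐ x ∂(volume.restrict G), ‖D x‖ ^ n ≤ K * |(D x).det|) →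
      (∀ᵐ x ∂(volume.restrict G), 0 ≤ (D x).det) ∨ (∀ᵐ x ∂(volume.restrict G), (D x).det ≤ 0)

end Pool.Agent.Helper80.NHM
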