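import Mathlib
open MeasureTheory Filter Topology Set
open scoped ENNReal NNReal RealInnerProductSpace

/-!
Definitions for the statement of MP_fecf7d_an (`n`-harmonic morphisms).
-/

namespace Pool.Agent.Helper80.NHarm

/-- `ℝⁿ` -/
abbrev Sp (n : ℕ) := EuclideanSpace ℝ (Fin n)

/-- linear maps `ℝⁿ → ℝⁿ` -/
abbrev Lin (n : ℕ) := Sp n →L[ℝ] Sp n

variable {n : ℕ}

/-- the inner product `x · y` -/
noncomputable def dot (x y : Sp n) : ℝ := ⟪x, y⟫

/-- the Euclidean norm `|x|` -/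
noncomputable def len (x : Sp n) : ℝ := ‖x‖

/-- the gradient `∇φ` -/
noncomputable def grad (φ : Sp n → ℝ) (x : Sp n) : Sp n := gradient φ x

/-- the property `P` holds at almost every point of `ℝⁿ` (Lebesgue measure) -/
def Ae (P : Sp n → Prop) : Prop := ∀ᵐ x ∂(volume : Measure (Sp n)), P x

/-- `φ ∈ C_c^∞(U)` -/
def IsTest (U : Set (Sp n)) (φ : Sp n → ℝ) : Prop :=
  ContDiff ℝ (⊤ : ℕ∞) φ ∧ HasCompactSupport φ ∧ tsupport φ ⊆ U

/-- `u ∈ Lⁿ_loc(U)`, for functions -/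
def LnLoc (U : Set (Sp n)) (u : Sp n → ℝ) : Prop :=
  ∀ K ⊆ U, IsCompact K → MemLp u (n : ℝ≥0∞) (volume.restrict K)

/-- `H ∈ Lⁿ_loc(U)`, for vector fields -/
def LnLocV (U : Set (Sp n)) (H : Sp n → Sp n) : Prop :=
  ∀ K ⊆ U, IsCompact K → MemLp H (n : ℝ≥0∞) (volume.restrict K)

/-- the vector `∫ u H` -/
noncomputable def integralMul (u : Sp n → ℝ) (H : Sp n → Sp n) : Sp n := ∫ x, u x • H x

/-- `u ∈ W^{1,n}_loc(U)` with weak gradient `H`: `u` and `H` are in `Lⁿ(K)` for every compact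
`K ⊆ U` and `∫ u ∇φ = - ∫ φ H` for every `φ ∈ C_c^∞(U)`. -/
def IsWeakGrad (U : Set (Sp n)) (u : Sp n → ℝ) (H : Sp n → Sp n) : Prop :=
  LnLoc U u ∧ LnLocV U H ∧
    ∀ φ : Sp n → ℝ, IsTest U φ → integralMul u (grad φ) = - integralMul φ H

/-- `x ↦ A(x,h)` is (Lebesgue) measurable for all `h` -/
def AMeas (A : Sp n → Sp n → Sp n) : Prop :=
  ∀ h, AEMeasurable (fun x => A x h) volume

/-- `A(x,h) · h ≥ α |h|ⁿ` for almost every `x` and all `h` -/
def ACoer (A : Sp n → Sp n → Sp n) (α : ℝ) : Prop :=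
  Ae fun x => ∀ h, α * len h ^ n ≤ dot (A x h) h

/-- `|A(x,h)| ≤ β |h|ⁿ⁻¹` for almost every `x` and all `h` -/
def ABdd (A : Sp n → Sp n → Sp n) (β : ℝ) : Prop :=
  Ae fun x => ∀ h, len (A x h) ≤ β * len h ^ (n - 1)

/-- `(A(x,h₁) - A(x,h₂)) · (h₁ - h₂) > 0` for almost every `x` and all `h₁ ≠ h₂` -/
def AMono (A : Sp n → Sp n → Sp n) : Prop :=
  Ae fun x => ∀ h₁ h₂, h₁ ≠ h₂ → 0 < dot (A x h₁ - A x h₂) (h₁ - h₂)

/-- `A(x, t h) = |t|ⁿ⁻² t A(x,h)` for almost every `x` and all `t ∈ ℝ` and `h` -/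
def AHom (A : Sp n → Sp n → Sp n) : Prop :=
  Ae fun x => ∀ (t : ℝ) (h : Sp n), A x (t • h) = (|t| ^ (n - 2) * t) • A x h

/-- Admissible operators `A : ℝⁿ × ℝⁿ → ℝⁿ`. -/
def IsAdmissible (A : Sp n → Sp n → Sp n) : Prop :=
  AMeas A ∧ (Ae fun x => Continuous (A x)) ∧
    (∃ α β : ℝ, 0 < α ∧ α ≤ β ∧ ACoer A α ∧ ABdd A β) ∧ AMono A ∧ AHom A

/-- `∫ A(x, H(x)) · ∇φ(x) dx` -/
noncomputable def weakForm (A : Sp n → Sp n → Sp n) (H : Sp n → Sp n) (φ : Sp n → ℝ) : ℝ :=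
  ∫ x, dot (A x (H x)) (grad φ x)

/-- `u` is `A`-harmonic on the open set `U`: a continuous weak solution in `W^{1,n}_loc(U)` of
`∇ · A(x, ∇u) = 0` (only the values of `u` on `U` matter). -/
def IsHarmonic (A : Sp n → Sp n → Sp n) (U : Set (Sp n)) (u : Sp n → ℝ) : Prop :=
  ContinuousOn u U ∧ ∃ H : Sp n → Sp n, IsWeakGrad U u H ∧
    ∀ φ : Sp n → ℝ, IsTest U φ → weakForm A H φ = 0

/-- `f : G → ℝⁿ` is an `(A*, A)`-harmonic morphism (`Astar` is the operator on the source side;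
only the values of `f` on `G` matter): `f` is continuous and `u ∘ f` is `A*`-harmonic on
`f⁻¹(G')` for every open `G'` and every `A`-harmonic function `u` on `G'`. -/
def IsMorphism (Astar A : Sp n → Sp n → Sp n) (G : Set (Sp n)) (f : Sp n → Sp n) : Prop :=
  ContinuousOn f G ∧ ∀ G' : Set (Sp n), IsOpen G' → ∀ u : Sp n → ℝ, IsHarmonic A G' u →
    IsHarmonic Astar (G ∩ f ⁻¹' G') (u ∘ f)

/-- `f : G → ℝⁿ` is an `n`-harmonic morphism: an `(A*, A)`-harmonic morphism for some admissible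
`A*` and `A`. -/
def IsNHarmonicMorphism (G : Set (Sp n)) (f : Sp n → Sp n) : Prop :=
  ∃ Astar A : Sp n → Sp n → Sp n, IsAdmissible Astar ∧ IsAdmissible A ∧ IsMorphism Astar A G f

/-- the entry `(L eⱼ)ᵢ` of the matrix of `L` in row `i` and column `j` -/
noncomputable def entry (L : Lin n) (i j : Fin n) : ℝ := L (EuclideanSpace.single j (1 : ℝ)) i

/-- the `i`-th row of the matrix of `L`, as a vector -/
noncomputable def row (L : Lin n) (i : Fin n) : Sp n := WithLp.toLp 2 fun j => entry L i j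

/-- the operator norm `|L|` -/
noncomputable def opNorm (L : Lin n) : ℝ := ‖L‖

/-- the determinant of `L` -/
noncomputable def jac (L : Lin n) : ℝ := L.det

/-- `f ∈ W^{1,n}_loc(G)` with weak derivative `D`: the weak gradient of the `i`-th component
of `f` is the `i`-th row of `D`. -/
def IsWeakDeriv (G : Set (Sp n)) (f : Sp n → Sp n) (D : Sp n → Lin n) : Prop :=
  ∀ i : Fin n, IsWeakGrad G (fun x => f x i) (fun x => row (D x) i)

/-- `|D(x)|ⁿ ≤ K det D(x)` for almost every `x ∈ G` -/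
def Distortion (G : Set (Sp n)) (D : Sp n → Lin n) (K : ℝ) : Prop :=
  ∀ᵐ x ∂(volume.restrict G), opNorm (D x) ^ n ≤ K * jac (D x)

/-- `f` is quasiregular on `G`: `f` is continuous, `f ∈ W^{1,n}_loc(G)` with weak derivative `D`,
and `|D(x)|ⁿ ≤ K det D(x)` for a.e. `x ∈ G`, for some `K ≥ 1`. -/
def IsQuasiregular (G : Set (Sp n)) (f : Sp n → Sp n) : Prop :=
  ContinuousOn f G ∧ ∃ (D : Sp n → Lin n) (K : ℝ), 1 ≤ K ∧ IsWeakDeriv G f D ∧ Distortion G D K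

/-- `r` is a reflection: an isometry of `ℝⁿ`, not the identity, which fixes some hyperplane
`{x | v · x = c}` (`v ≠ 0`) pointwise. -/
def IsReflection (r : Sp n → Sp n) : Prop :=
  Isometry r ∧ r ≠ id ∧ ∃ (v : Sp n) (c : ℝ), v ≠ 0 ∧ ∀ x, dot v x = c → r x = x

end Pool.Agent.Helper80.NHarm
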