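import Mathlib
open MeasureTheory Filter Topology Set
open scoped ENNReal NNReal RealInnerProductSpace

/-!
Definitions for the statement of MP_fecf7d_an (`n`-harmonic morphisms).
-/

namespace Pool.Agent.Helper80.NHM

/-- `ℝⁿ` -/
abbrev Sp (n : ℕ) := EuclideanSpace ℝ (Fin n)

variable {n : ℕ}

/-- `φ ∈ C_c^∞(U)`. -/
structure IsTest (U : Set (Sp n)) (φ : Sp n → ℝ) : Prop where
  smooth : ContDiff ℝ (⊤ : ℕ∞) φ
  compact : HasCompactSupport φ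
  support : tsupport φ ⊆ U

/-- `u ∈ W^{1,n}_loc(U)` with weak gradient `H`: `u` and `H` are in `Lⁿ(K)` for every compact
`K ⊆ U` and `∫ u ∇φ = - ∫ φ H` for every `φ ∈ C_c^∞(U)`. -/
structure IsWeakGrad (U : Set (Sp n)) (u : Sp n → ℝ) (H : Sp n → Sp n) : Prop where
  fun_loc : ∀ K ⊆ U, IsCompact K → MemLp u (n : ℝ≥0∞) (volume.restrict K)
  grad_loc : ∀ K ⊆ U, IsCompact K → MemLp H (n : ℝ≥0∞) (volume.restrict K)
  ibp : ∀ φ : Sp n → ℝ, IsTest U φ → ∫ x, u x • gradient φ x = - ∫ x, φ x • H x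

/-- Admissible operators `A : ℝⁿ × ℝⁿ → ℝⁿ` (all pointwise conditions are only required for
almost every `x`). -/
structure IsAdmissible (n : ℕ) (A : Sp n → Sp n → Sp n) : Prop where
  measurable : ∀ h, AEMeasurable (fun x => A x h) volume
  continuous : ∀ᵐ x ∂(volume : Measure (Sp n)), Continuous (A x)
  growth : ∃ α β : ℝ, 0 < α ∧ α ≤ β ∧
    (∀ᵐ x ∂(volume : Measure (Sp n)), ∀ h, α * ‖h‖ ^ n ≤ ⟪A x h, h⟫) ∧
    (∀ᵐ x ∂(volume : Measure (Sp n)), ∀ h, ‖A x h‖ ≤ β * ‖h‖ ^ (n - 1))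
  monotone : ∀ᵐ x ∂(volume : Measure (Sp n)), ∀ h₁ h₂, h₁ ≠ h₂ →
    0 < ⟪A x h₁ - A x h₂, h₁ - h₂⟫
  homogeneous : ∀ᵐ x ∂(volume : Measure (Sp n)), ∀ (t : ℝ) (h : Sp n),
    A x (t • h) = (|t| ^ (n - 2) * t) • A x h

/-- `u` is `A`-harmonic on the open set `U`: a continuous weak solution in `W^{1,n}_loc(U)` of
`∇ · A(x, ∇u) = 0` (only the values of `u` on `U` matter). -/
def IsHarmonic (A : Sp n → Sp n → Sp n) (U : Set (Sp n)) (u : Sp n → ℝ) : Prop :=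
  ContinuousOn u U ∧ ∃ H : Sp n → Sp n, IsWeakGrad U u H ∧
    ∀ φ : Sp n → ℝ, IsTest U φ → ∫ x, ⟪A x (H x), gradient φ x⟫ = 0

/-- `f : G → ℝⁿ` is an `(A*, A)`-harmonic morphism (`Astar` is the operator on the source side;
only the values of `f` on `G` matter). -/
def IsMorphism (Astar A : Sp n → Sp n → Sp n) (G : Set (Sp n)) (f : Sp n → Sp n) : Prop :=
  ContinuousOn f G ∧ ∀ G' : Set (Sp n), IsOpen G' → ∀ u : Sp n → ℝ, IsHarmonic A G' u →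
    IsHarmonic Astar (G ∩ f ⁻¹' G') (u ∘ f)

/-- `f : G → ℝⁿ` is an `n`-harmonic morphism: an `(A*, A)`-harmonic morphism for some admissible
`A*` and `A`. -/
def IsNHarmonicMorphism (G : Set (Sp n)) (f : Sp n → Sp n) : Prop :=
  ∃ Astar A : Sp n → Sp n → Sp n, IsAdmissible n Astar ∧ IsAdmissible n A ∧ IsMorphism Astar A G f

/-- `f` is quasiregular on `G`: `f` is continuous, `f ∈ W^{1,n}_loc(G)` with weak derivative `D`,
i.e. the weak gradient of the `i`-th component of `f` is the `i`-th row `D(x)ᵀ eᵢ` of `D`, and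
`|D(x)|ⁿ ≤ K det D(x)` for a.e. `x ∈ G`. -/
def IsQuasiregular (G : Set (Sp n)) (f : Sp n → Sp n) : Prop :=
  ContinuousOn f G ∧ ∃ (D : Sp n → (Sp n →L[ℝ] Sp n)) (K : ℝ), 1 ≤ K ∧
    (∀ i : Fin n, IsWeakGrad G (fun x => f x i)
      (fun x => ContinuousLinearMap.adjoint (D x) (EuclideanSpace.single i (1 : ℝ)))) ∧
    ∀ᵐ x ∂(volume.restrict G), ‖D x‖ ^ n ≤ K * (D x).det

/-- `r` is a reflection: an isometry of `ℝⁿ`, not the identity, which fixes some hyperplane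
`{x | ⟪v, x⟫ = c}` (`v ≠ 0`) pointwise. -/
def IsReflection (r : Sp n → Sp n) : Prop :=
  Isometry r ∧ r ≠ id ∧ ∃ (v : Sp n) (c : ℝ), v ≠ 0 ∧ ∀ x, ⟪v, x⟫ = c → r x = x

end Pool.Agent.Helper80.NHM
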